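import Pool.Agent.Helper50.MB.Goals

/-!
# Packet MB-BFS: breadth first search in a connected multigraph
-/

set_option autoImplicit false

namespace Pool.Agent.Helper90.MB

open Pool.Agent.Helper50.MB

/-- `v` is reached from `r` by exactly `k` steps. -/
def R {V E : Type} (s t : E → V) (r : V) : ℕ → V → Prop
  | 0, v => v = r
  | k + 1, v => ∃ w, R s t r k w ∧ Adj s t w v

theorem goalBFS : Pool.Agent.Helper50.MB.BFS := by
  classical
  intro V E _ s t r hc
  haveI : Nonempty V := ⟨r⟩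
  have hex : ∀ v, ∃ k, R s t r k v := by
    intro v
    induction hc r v with
    | refl => exact ⟨0, rfl⟩
    | tail _ hab ih =>
      obtain ⟨k, hk⟩ := ih
      exact ⟨k + 1, _, hk, hab⟩
  let d : V → ℕ := fun v ↦ Nat.find (hex v)
  have hd : ∀ v, R s t r (d v) v := fun v ↦ Nat.find_spec (hex v)
  have hmin : ∀ v k, R s t r k v → d v ≤ k := fun v k h ↦ Nat.find_min' (hex v) h
  have hadj : ∀ a b, Adj s t a b → d b ≤ d a + 1 := fun a b h ↦ hmin b _ ⟨a, hd a, h⟩
  have hdr : d r = 0 := Nat.le_zero.1 (hmin r 0 rfl)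
  have hpar : ∀ v, v ≠ r → ∃ (w : V) (e : E), d v = d w + 1 ∧
      ((s e = v ∧ t e = w) ∨ (s e = w ∧ t e = v)) := by
    intro v hv
    have h := hd v
    cases hk : d v with
    | zero =>
      rw [hk] at h
      exact absurd h hv
    | succ k =>
      rw [hk] at h
      obtain ⟨w, hw, e, he⟩ := h
      refine ⟨w, e, ?_, ?_⟩
      · have h1 := hmin w k hw
        have h2 := hadj w v ⟨e, he⟩
        omega
      · rcases he with ⟨h1, h2⟩ | ⟨h1, h2⟩
        · exact Or.inr ⟨h1, h2⟩
        · exact Or.inl ⟨h1, h2⟩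
  choose! par p hp1 hp2 using hpar
  refine ⟨d, fun v ↦ if v = r then r else par v, p, hdr, if_pos rfl, ?_, ?_, ?_⟩
  · intro e
    exact ⟨hadj (t e) (s e) ⟨e, Or.inr ⟨rfl, rfl⟩⟩, hadj (s e) (t e) ⟨e, Or.inl ⟨rfl, rfl⟩⟩⟩
  · intro v hv
    unfold PE
    simp only [if_neg hv]
    exact ⟨hp1 v hv, hp2 v hv⟩
  · intro v w hv hw hvw
    by_contra hne
    have h1 := hp1 v hv
    have h2 := hp1 w hw
    rcases hp2 v hv with ⟨a, b⟩ | ⟨a, b⟩ <;> rcases hp2 w hw with ⟨a', b'⟩ | ⟨a', b'⟩ <;>
      rw [hvw] at a b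
    · exact hne (a.symm.trans a')
    · have e1 : par w = v := a'.symm.trans a
      have e2 : par v = w := b.symm.trans b'
      rw [e2] at h1
      rw [e1] at h2
      omega
    · have e1 : w = par v := a'.symm.trans a
      have e2 : v = par w := b.symm.trans b'
      rw [← e1] at h1
      rw [← e2] at h2
      omega
    · exact hne (b.symm.trans b')

end Pool.Agent.Helper90.MB
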